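/-
Project IW (MP_658dbf_an): the infimum of a weighted L² norm over monic integer polynomials.
Basic definitions.
-/
import Mathlib

open MeasureTheory Set Filter Topology Polynomial

namespace Pool.Agent.L7h38.IW

/-- The value `P(e^{iθ})`. -/
noncomputable def ev (P : ℤ[X]) (θ : ℝ) : ℂ :=
  Polynomial.aeval (Complex.exp (θ * Complex.I)) P

/-- The integral of the problem: `∫_{-π}^{π} |1 - e^{iθ}|^{2λ} |P(e^{iθ})|² dθ`. -/
noncomputable def wint (lam : ℝ) (P : ℤ[X]) : ℝ :=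
  ∫ θ in (-Real.pi)..Real.pi,
    ‖1 - Complex.exp (θ * Complex.I)‖ ^ (2 * lam) * ‖ev P θ‖ ^ 2

/-- `I(λ)`: the infimum over all monic integer polynomials. -/
noncomputable def II (lam : ℝ) : ℝ :=
  sInf {x | ∃ P : ℤ[X], P.Monic ∧ x = wint lam P}

/-- `Γ(2μ + 1) / Γ(μ + 1)²`. -/
noncomputable def cb (μ : ℝ) : ℝ := Real.Gamma (2 * μ + 1) / Real.Gamma (μ + 1) ^ 2

/-- The explicit function: with `m = ⌊λ⌋` and `μ = λ - m` it is `2 π cb(μ)` for `m = 0` and
`4 π cb(μ) λ / (1 + μ)` for `m ≥ 1`. -/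
noncomputable def ff (lam : ℝ) : ℝ :=
  if lam < 1 then 2 * Real.pi * cb lam
  else 4 * Real.pi * cb (Int.fract lam) * lam / (1 + Int.fract lam)

/-- An ideal solution of the Prouhet-Tarry-Escott problem of size `m` with `2 m` distinct
integers. -/
def IdealPTE (m : ℕ) : Prop :=
  ∃ a b : Fin m → ℤ, Function.Injective a ∧ Function.Injective b ∧ (∀ i j, a i ≠ b j) ∧
    ∀ k < m, ∑ i, a i ^ k = ∑ i, b i ^ k

/-! ### Auxiliary definitions -/

/-- `A(θ) = |1 - e^{iθ}|² = 2 - 2 cos θ`. -/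
noncomputable def AA (θ : ℝ) : ℝ := 2 - 2 * Real.cos θ

/-- `∫ A^μ |Q|²`. -/
noncomputable def JJ (μ : ℝ) (Q : ℤ[X]) : ℝ :=
  ∫ θ in (-Real.pi)..Real.pi, AA θ ^ μ * ‖ev Q θ‖ ^ 2

/-- `∫ A^μ cos (k θ)`. -/
noncomputable def cc (μ : ℝ) (k : ℕ) : ℝ :=
  ∫ θ in (-Real.pi)..Real.pi, AA θ ^ μ * Real.cos (k * θ)

/-- The list of the coefficients of `Q`, from degree `0` to the degree of `Q`. -/
noncomputable def cl (Q : ℤ[X]) : List ℤ := (List.range (Q.natDegree + 1)).map Q.coeff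

/-- The cost of a list of integers with the exponential memory `v`:
`∑ q_n (q_n - v_{n-1})`, `v_n = t v_{n-1} + (1 - t) q_n`. -/
noncomputable def cost (t : ℝ) : ℝ → List ℤ → ℝ
  | _, [] => 0
  | v, q :: l => (q : ℝ) * (q - v) + cost t (t * v + (1 - t) * q) l

/-- The number of sign changes of the partial sums `s + q_1 + … + q_n` of a list, starting with the
partial sum `s` and the sign `σ` of the last nonzero partial sum (`σ = 0`: none yet). -/
def sc : ℤ → ℤ → List ℤ → ℕ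
  | _, _, [] => 0
  | σ, s, q :: l =>
      if s + q = 0 then sc σ 0 l
      else (if (s + q).sign = σ ∨ σ = 0 then 0 else 1) + sc (s + q).sign (s + q) l

/-- `H(x) = (max(|x|,1)² - 1) / (2 (1 - t))`. -/
noncomputable def Hh (t x : ℝ) : ℝ := (max |x| 1 ^ 2 - 1) / (2 * (1 - t))

/-- The lower bound for the future cost when the partial sum is positive, `k` sign changes of the
partial sums have to come, and the memory is `v = -x`. -/
noncomputable def Fk (t : ℝ) (k : ℕ) (x : ℝ) : ℝ :=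
  k * (1 + t) + 1 - (if k = 0 then 1 else 1 + t) * min (max x 0) 1 - Hh t x

/-- The same when the partial sum is `0` and the last nonzero partial sum was positive. -/
noncomputable def Zk (t : ℝ) (k : ℕ) (x : ℝ) : ℝ :=
  if k = 0 then - Hh t x else ((k : ℝ) - 1) * (1 + t) + 2 - min |x| 1 - Hh t x

/-- The polynomial `X^{p 0} - X^{p 1}(1 + X) + X^{p 2}(1 + X) - … + (-1)^m X^{p m}`. -/
noncomputable def TQ (m : ℕ) (p : ℕ → ℕ) : ℤ[X] :=
  X ^ p 0 + (∑ i ∈ Finset.Ico 1 m, (-1) ^ i * (X ^ p i + X ^ (p i + 1))) + (-1) ^ m * X ^ p m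

/-- There are such polynomials, divisible by `(X - 1)^m`, with arbitrarily large gaps. -/
def Tight (m : ℕ) : Prop :=
  ∀ K : ℕ, ∃ p : ℕ → ℕ, (∀ i < m, p i + K ≤ p (i + 1)) ∧ (X - 1) ^ m ∣ TQ m p

end Pool.Agent.L7h38.IW
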