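/-
Project IW (MP_658dbf_an): weighted L² infimum over monic integer polynomials.

THEOREM.  `I(λ) ≥ ff λ` for all `λ > 0`, with equality for all `0 < λ ≤ 6`, and for an integer
`m ≥ 1` if and only if there is an ideal solution of the Prouhet-Tarry-Escott problem of size `m`
(so also for `m = 7, 8, 9, 10, 12`).

Independent statements, all elementary.  Write `S_X` is to be proved as
`theorem s_X : S_X` (or with earlier parts as hypotheses, as said in the docstring) in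
`Pool/Agent/L7hNN/IW/X.lean`.  Notation: `z = e^{iθ}`, `A = |1 - z|² = 2 - 2 cos θ`.

Idea.  With `μ = fract λ`, `m = ⌊λ⌋`, `Q = (1 - z)^m P` the integral is `∫ A^μ |Q|²`.
`A^μ` is a positive mixture of the functions `A / (s + A)`, `s > 0`, and
`A / (s + A) = t A / ((1 - t)² + t A) = t A / |1 - t z|²` for the `t ∈ (0,1)` with
`(1 - t)² = t s`.  For this weight the quadratic form of `Q` is `cost t 0 (cl Q)` (up to a factor),
a sum over the coefficients with an exponential memory, and a dynamic programming argument gives the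
minimum for integer sequences whose partial sums change their sign `m - 1` times.
-/
import Pool.Agent.L7h38.IW.Defs

open MeasureTheory Set Filter Topology Polynomial

namespace Pool.Agent.L7h38.IW

/-! ### The dynamic programming inequalities

`0 < t < 1`, `x` real (minus the memory), `d` an integer (the amount by which the partial sum goes
down, `d < 0` is up, `d = 0` is waiting), `x' = t x + (1 - t) d` the new value.  The cost is
`d (d - x)`.  `H = Hh t`, `H = 0` on `[-1, 1]`, `H` is even and increasing in `|x|`,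
`H(b) ≤ b² / (2 (1 - t))`.

Basic inequality (P), proved first in all parts:
`d (d - x) + H(x) - H(x') ≥ 0` for integers `d ≥ 0` and `x ≥ 0`.
If `x ≥ 1`, `d ≥ 1` then `x' ≥ 1` and the left side is `(1 + t) (x - d)² / 2`.
If `x < 1`, `d = 1`: `x' < 1`, it is `1 - x`.
If `0 ≤ x < 1`, `d ≥ 2` one has even (P2): `d (d - x) - H(x') ≥ (1 + t) (1 - x)`:
with `y = 1 - x`, `x' = 1 + (1 - t)(d - 1) - t y`; if `x' ≤ 1`: `d (d - x) ≥ 2 (2 - x)`; if `x' > 1`: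
`H(x') ≤ (d - 1) + (1 - t)(d - 1)²/2` and `d (d - x) = d (d - 1) + d y`, so the difference is at
least `(d - 1)² (1 + t)/2 + d y ≥ 2 y`.
For moves against the memory (`d ≤ 0 ≤ x` and `x' < 0`, or `x < 0 < d` and `x' > 0`) one has
`|x'| ≤ (1 - t) |d|`, so `H(x') ≤ (1 - t) d²/2 ≤ d²/2`, and `H(x') = 0` for `|d| = 1`.
For `x < 0`, `d ≤ 0` reflect: it is (P) for `|x|`, `|d|`. -/

/-- (1) The partial sum stays positive.
`Fk t k x' + d (d - x) ≥ Fk t k x`.  Let `c = 1` or `1 + t`.  `x ≥ 1`, `d ≥ 1`: (P).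
`0 ≤ x < 1`, `d = 1`: `(1 - x)(1 - c (1 - t)) ≥ 0`.  `0 ≤ x < 1`, `d ≥ 2`: (P2), as
`c (min(x',1) - x) ≤ (1 + t)(1 - x)`.  `d = 0`: monotonicity.  `x ≥ 0`, `d < 0`: if `x' ≥ 0`
monotonicity (`x' ≤ x`), if `x' < 0`: `|x'| ≤ (1 - t)|d|`, `H(x') ≤ d²/2`.  `x < 0`, `d ≤ 0`:
(P) for `|x|`, `|d|`.  `x < 0`, `d > 0`: if `x' ≤ 0`: `|x'| ≤ |x|`; if `x' > 0`:
`x' ≤ (1 - t) d`, and `c min(x',1) + H(x') ≤ d²` (if `(1-t) d ≤ 1`: `(1+t)(1-t) d ≤ d`, otherwise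
`d ≥ 2` and `(1 + t) + (1 - t) d²/2 ≤ 2 + d²/2 ≤ d²`). -/
def S_ST1 : Prop := ∀ (t : ℝ), 0 < t → t < 1 → ∀ (k : ℕ) (x : ℝ) (d : ℤ),
  Fk t k x ≤ d * (d - x) + Fk t k (t * x + (1 - t) * d)

/-- (2) The partial sum goes from positive to `0`.
`x ≥ 1`: (P) and the constants: `k ≥ 1`: `2 - 1 = 1`, `1 + (k-1)(1+t) + ... `; precisely for
`k ≥ 1` one needs `d (d - x) - (H(x') - H(x)) - t - min(|x'|,1) + (1 + t) min(max(x,0),1) ≥ 0`,
which is (P) for `x ≥ 1` (then `x' ≥ 1`), `0` for `0 ≤ x < 1`, `d = 1`, and for `0 ≤ x < 1`, `d ≥ 2`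
it follows from (P2).  `x < 0`: if `x' < 0` then `|x'| ≤ |x|` and `d (d - x) ≥ 1 + |x|`; if `x' ≥ 0`
then `x' ≤ (1 - t) d` (`d = 1`: `1 + |x| - t - (1 - t) ≥ 0`; `d ≥ 2`: `d² - t - 1 - d²/2 ≥ 0`).
`k = 0`: `d (d - x) - H(x') + H(x) - 1 + min(max(x,0),1) ≥ 0`, same cases. -/
def S_ST2 : Prop := ∀ (t : ℝ), 0 < t → t < 1 → ∀ (k : ℕ) (x : ℝ) (d : ℤ), 1 ≤ d →
  Fk t k x ≤ d * (d - x) + Zk t k (t * x + (1 - t) * d)

/-- (3) The partial sum jumps from positive to negative, `d ≥ 2`.  (The number of the sign changes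
to come is `k - 1`, natural subtraction: for `k = 0` it stays `0`.)
`k ≥ 1`, `x ≥ 0`: `d (d - x) - H(x') + H(x) ≥ (1 + t)(1 - min(x,1))`: (P), (P2).
`x < 0`, `x' ≥ 0`: `H(x') ≤ d²/2` and `d² - (1 + t) - d²/2 ≥ 0`.  `x < 0`, `x' < 0`: `|x'| ≤ |x|`,
`d (d - x) ≥ 4 + 2|x| ≥ (1 + t) + (1 + t) min(|x'|, 1)`. -/
def S_ST3 : Prop := ∀ (t : ℝ), 0 < t → t < 1 → ∀ (k : ℕ) (x : ℝ) (d : ℤ), 2 ≤ d →
  Fk t k x ≤ d * (d - x) + Fk t (k - 1) (-(t * x + (1 - t) * d))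

/-- (4) Waiting at `0`: monotonicity of `min(|x|,1)` and `H`. -/
def S_ST4 : Prop := ∀ (t : ℝ), 0 < t → t < 1 → ∀ (k : ℕ) (x : ℝ),
  Zk t k x ≤ Zk t k (t * x)

/-- (5) From `0` back to the side from which one came (`e = -d ≥ 1`, cost `e (e + x)`, new value
`x' = t x - (1 - t) e`).
`k ≥ 1`, `x ≥ 0`, `x' ≥ 0` (`x' ≤ x`): `e (e + x) + t + min(x,1) - (1 + t) min(x',1) ≥ 1 + x - t`.
`x ≥ 0`, `x' < 0`: `H(x') ≤ e²/2` or `0`, `e² + t - H ≥ 0`.  `x < 0`: (P) for `|x|`, `e`. -/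
def S_ST5 : Prop := ∀ (t : ℝ), 0 < t → t < 1 → ∀ (k : ℕ) (x : ℝ) (e : ℤ), 1 ≤ e →
  Zk t k x ≤ e * (e + x) + Fk t k (t * x - (1 - t) * e)

/-- (6) From `0` to the other side, `d ≥ 1`.
`k ≥ 1`, `x ≥ 0`: `d (d - x) - H(x') + H(x) - 1 + min(x,1) ≥ 0` by (P) or (P2) or
`d = 1` (`(1 - x) - 1 + x = 0`).  `x < 0`, `a = |x|`: if `x' ≥ 0`:
`d (d + a) + 1 - H(x') ≥ 2 - min(a,1) - H(a)`, `H(x') ≤ d²/2` and `= 0` for `d = 1`; if `x' < 0`,
`b = -x' ≤ a`: `d (d + a) + 1 - c min(b,1) - H(b) ≥ 2 - min(a,1) - H(a)`, as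
`c min(b,1) ≤ 2 min(b,1) ≤ a + min(a,1)`.  `k = 0` is similar and easier. -/
def S_ST6 : Prop := ∀ (t : ℝ), 0 < t → t < 1 → ∀ (k : ℕ) (x : ℝ) (d : ℤ), 1 ≤ d →
  Zk t k x ≤ d * (d - x) + Fk t (k - 1) (-(t * x + (1 - t) * d))

/-- The dynamic programming theorem.  Proof from the hypotheses `S_ST1 … S_ST6`.  By induction on
the list, for all `v`, all `σ = ±1` and all `s` which are `0` or have the sign `σ`, if
`s + l.sum = 0`: `cost t v l ≥ Fk t k (-σ v)` if `s ≠ 0`, and `≥ Zk t k (-σ v)` if `s = 0`, where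
`k = sc σ s l`.  (Empty list: `s = 0`, `k = 0`, `Zk = -H ≤ 0`.)  Reflection symmetry:
`cost t (-v) (l.map (-·)) = cost t v l`, and the same for `sc`; so only `σ = 1` has to be treated.
Then `σ = 0`, `s = 0`, `v = 0`: leading zeros cost nothing; the first nonzero entry `j` costs `j²`,
the new memory is `(1 - t) j`, and `j² + Fk t k (-(1 - t) |j|) ≥ k (1 + t) + 2`, since
`H((1 - t) j) ≤ j²/2` and `= 0` for `|j| = 1`. -/
def S_DP : Prop := ∀ (t : ℝ), 0 < t → t < 1 → ∀ l : List ℤ, l.sum = 0 → (∃ q ∈ l, q ≠ 0) →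
  (sc 0 0 l : ℝ) * (1 + t) + 2 ≤ cost t 0 l

/-- The simple version without a condition on the sum.  By (P): the cost of the future is at least
`-H(v)` for every memory `v` (moves against the memory are even more expensive); the first nonzero
entry `j` costs `j²` and `j² - H((1 - t) j) ≥ 1`. -/
def S_DP0 : Prop := ∀ (t : ℝ), 0 < t → t < 1 → ∀ l : List ℤ, (∃ q ∈ l, q ≠ 0) →
  1 ≤ cost t 0 l

/-! ### Sign changes -/

/-- The partial sums of the coefficients of `Q = (X - 1)^m P`, `m ≥ 1`, are the coefficients of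
`-(X - 1)^(m-1) P`, which have at least `m - 1` sign changes: by Descartes' rule of signs in Mathlib
(`Polynomial.roots_countP_pos_le_signVariations`), or by induction on `m`: the sequence of the
differences of a nonzero finitely supported sequence (with zeros on both sides) has at least one
sign change more than the sequence. -/
def S_DESC : Prop := ∀ (m : ℕ) (P : ℤ[X]), 1 ≤ m → P ≠ 0 →
  (cl ((X - 1) ^ m * P)).sum = 0 ∧ m - 1 ≤ sc 0 0 (cl ((X - 1) ^ m * P))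

/-- The total variation of the partial sums: a list of integers with sum `0`, not all zero, has
`∑ |q| ≥ 2 (sc + 1)`.  (Induction: with the partial sum `s` and its sign `σ` the rest of the list
has `∑ |q| ≥ |s| + 2 sc σ s l`.) -/
def S_L1 : Prop := ∀ l : List ℤ, l.sum = 0 → (∃ q ∈ l, q ≠ 0) →
  2 * ((sc 0 0 l : ℤ) + 1) ≤ (l.map fun q => |q|).sum

/-! ### Analysis -/

/-- The Fourier coefficients of `A / |1 - t z|²`, `|1 - t z|² = (1 - t)² + t A`.  For instance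
`A / |1 - t z|² = (1 - (1 - t)² / |1 - t z|²) / t` and the Poisson kernel
`(1 - t²)/|1 - t z|² = 1 + 2 ∑ t^k cos (k θ)` (uniformly convergent). -/
def S_PK : Prop := ∀ (t : ℝ), 0 < t → t < 1 →
  (∫ θ in (-Real.pi)..Real.pi, AA θ / ((1 - t) ^ 2 + t * AA θ)) = 4 * Real.pi / (1 + t) ∧
  ∀ k : ℕ, (∫ θ in (-Real.pi)..Real.pi,
      AA θ / ((1 - t) ^ 2 + t * AA θ) * Real.cos ((k + 1) * θ)) =
    - (2 * Real.pi * (1 - t) / (1 + t)) * t ^ k

/-- The quadratic form of the weight `A / |1 - t z|²` is the cost.  From `S_PK`: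
`|Q(z)|² = ∑_{i,j} q_i q_j cos ((i - j) θ)`, and
`cost t 0 l = ∑ q_i² - (1 - t) ∑_{i<j} q_i q_j t^(j-i-1)` (induction on the list, with the general
memory: `cost t v l = cost t 0 l - v ∑ q_i t^i`). -/
def S_TL : Prop := ∀ (t : ℝ), 0 < t → t < 1 → ∀ Q : ℤ[X],
  (∫ θ in (-Real.pi)..Real.pi, AA θ / ((1 - t) ^ 2 + t * AA θ) * ‖ev Q θ‖ ^ 2) =
    4 * Real.pi / (1 + t) * cost t 0 (cl Q)

/-- Mixtures: if `∫ A/(s + A) g ≥ 0` for all `s > 0` then `∫ A^μ g ≥ 0` for all `0 ≤ μ < 1`.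
For `0 < μ < 1` use Mathlib's `Real.exists_measure_rpow_eq_integral` (a measure `ν` with
`x^μ = ∫ t in Ioi 0, rpowIntegrand₀₁ μ t x ∂ν` for `x ≥ 0`; `rpowIntegrand₀₁ μ t x =
t^μ (t⁻¹ - (t + x)⁻¹) = t^(μ-1) x/(t + x)`) and Fubini (the product is integrable: `|g| ≤ C` and
`∫∫ rpowIntegrand = ∫ A^μ`); alternatively `x^μ = c ∫_0^∞ s^(μ-1) x/(s + x) ds`.  For `μ = 0` let
`s → 0` (dominated convergence, `A/(s + A) → 1` for `θ ≠ 0`). -/
def S_FUB : Prop := ∀ g : ℝ → ℝ, Continuous g →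
  (∀ s : ℝ, 0 < s → 0 ≤ ∫ θ in (-Real.pi)..Real.pi, AA θ / (s + AA θ) * g θ) →
  ∀ μ : ℝ, 0 ≤ μ → μ < 1 → 0 ≤ ∫ θ in (-Real.pi)..Real.pi, AA θ ^ μ * g θ

/-- `∫ A^μ cos θ = - μ/(1+μ) ∫ A^μ`.  The derivative of `A^μ sin θ` is
`μ A^μ (1 + cos θ) + A^μ cos θ` for `θ ≠ 0` (for `A ≠ 0`: `A' = 2 sin θ`,
`2 sin² θ = A (1 + cos θ)`); fundamental theorem off a countable set
(`intervalIntegral.integral_eq_of_hasDerivAt_of_le` / `..._off_countable`); for `μ = 0` clear. -/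
def S_COS : Prop := ∀ μ : ℝ, 0 ≤ μ →
  (∫ θ in (-Real.pi)..Real.pi, AA θ ^ μ * Real.cos θ) =
    - (μ / (1 + μ)) * ∫ θ in (-Real.pi)..Real.pi, AA θ ^ μ

/-- `∫ A^μ = 2 π Γ(2μ+1)/Γ(μ+1)²`.  `A = 4 sin² (θ/2)`; with `x = sin² (θ/2)` it is a Beta integral
`4^μ · 2 · B(μ + 1/2, 1/2)` (`Complex.betaIntegral`, `Complex.Gamma_mul_Gamma_eq_betaIntegral`), and
Legendre's duplication formula `Real.Gamma_mul_Gamma_add_half`. -/
def S_GAM : Prop := ∀ μ : ℝ, 0 ≤ μ →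
  (∫ θ in (-Real.pi)..Real.pi, AA θ ^ μ) = 2 * Real.pi * cb μ

/-- Riemann-Lebesgue. -/
def S_RL : Prop := ∀ μ : ℝ, 0 ≤ μ → Tendsto (fun k : ℕ => cc μ k) atTop (𝓝 0)

/-- The quadratic form of `A^μ`. -/
def S_QF : Prop := ∀ (μ : ℝ), 0 ≤ μ → ∀ Q : ℤ[X],
  JJ μ Q = ∑ i ∈ Finset.range (Q.natDegree + 1), ∑ j ∈ Finset.range (Q.natDegree + 1),
    (Q.coeff i : ℝ) * Q.coeff j * cc μ ((i - j) + (j - i))

/-- `|1 - z|^(2(m+μ)) |P|² = A^μ |(z - 1)^m P|²`. -/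
def S_RED : Prop := ∀ (m : ℕ) (μ : ℝ), 0 ≤ μ → ∀ P : ℤ[X],
  wint (m + μ) P = JJ μ ((X - 1) ^ m * P)

/-- The limit of the quadratic form of the polynomials `TQ m p` if all gaps go to infinity:
`∫ A^μ |TQ m p|² → ∫ A^μ (2 m + 2 (m - 1) cos θ)`.  From `|TQ|² = ∑ …` over the terms (a sum over
`2 m` exponents, not over the coefficients) and `S_RL`: two different terms contribute
`± 2 cc μ (difference)`, the difference is `1` for the two terms of a pair and at least `K - 1`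
otherwise. -/
def S_LIM : Prop := ∀ (m : ℕ), 1 ≤ m → ∀ (μ : ℝ), 0 ≤ μ → ∀ ε : ℝ, 0 < ε → ∃ K : ℕ,
  ∀ p : ℕ → ℕ, (∀ i < m, p i + K ≤ p (i + 1)) →
    JJ μ (TQ m p) ≤ 2 * m * cc μ 0 + 2 * ((m : ℝ) - 1) * cc μ 1 + ε

/-! ### Tight solutions of the Prouhet-Tarry-Escott problem -/

/-- `p = (0, n)`. -/
def S_T1 : Prop := Tight 1

/-- `p = (0, n, 2n+1)`: `TQ = (1 - X^n)(1 - X^(n+1))`. -/
def S_T2 : Prop := Tight 2

/-- `p = (0, n, 3n+1, 4n+2)`: `TQ = (1 - X^n)(1 - X^(n+1))(1 - X^(2n+1))`. -/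
def S_T3 : Prop := Tight 3

/-- `p = (0, (a-b-1)/2, (a-1)/2, (a+b-1)/2, a)` with `a² = 2b² + 1` (so `a` odd, `b` even);
infinitely many: `(a,b) → (3a+4b, 2a+3b)` from `(3,2)`.  `(X-1)^4` divides: the power sums of the
exponents of orders `0, 1, 2, 3` agree (write `b = 2β`, `a = 2α+1`).  A criterion: `(X-1)^m ∣ f` if
and only if `X^m ∣ f(X+1)` (`Polynomial.taylor`), the coefficients of `(X+1)^a` are binomial
coefficients. -/
def S_T4 : Prop := Tight 4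

/-- `p = (0, A-(b+1)/2, A-(c+1)/2, A+(c-1)/2, A+(b-1)/2, 2A)`, `A = b - c`, with `b, c` odd and
`b² - 3bc + c² = 1`; infinitely many: `(b,c) → (21b-8c, 8b-3c)` from `(3,1)` (next `(55,21)`); power
sums of orders `0, …, 4`. -/
def S_T5 : Prop := Tight 5

/-! ### Ideal solutions -/

/-- For an integer `m ≥ 1`: there is an integer polynomial `Q`, divisible by `(X-1)^m`, with leading
coefficient `±1` and `∑ q_i² = 2m`, if and only if there is an ideal solution.  From `S_DESC`, `S_L1`: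
`∑ |q_i| ≥ 2m = ∑ q_i²`, so all `q_i ∈ {-1,0,1}`, and `∑ q_i = 0`: `m` of them are `1` and `m` are
`-1`; conversely `Q = ∑ X^(a_i) - ∑ X^(b_i)` after a translation which makes the `a_i`, `b_i`
natural numbers; the criterion for the divisibility by `(X-1)^m` is that the power sums (equivalently
the sums of binomial coefficients) of the exponents agree for `k < m`. -/
def S_PTE : Prop := ∀ m : ℕ, 1 ≤ m →
  (IdealPTE m ↔ ∃ P : ℤ[X], P.Monic ∧
    ∑ i ∈ Finset.range (((X - 1) ^ m * P).natDegree + 1), ((X - 1) ^ m * P).coeff i ^ 2 =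
      2 * (m : ℤ))

/-- Explicit ideal solutions:
6: `±4, ±9, ±13` and `±1, ±11, ±12`;
7: `0,18,27,58,64,89,101` and `1,13,38,44,75,84,102`;
8: `±2,±16,±21,±25` and `±5,±14,±23,±24`;
9: `0,24,30,83,86,133,157,181,197` and `1,17,41,65,112,115,168,174,198`;
10: `±99,±100,±188,±301,±313` and `±71,±131,±180,±307,±308`;
12: `±22,±61,±86,±127,±140,±151` and `±35,±47,±94,±121,±146,±148`. -/
def S_VAL : Prop := IdealPTE 6 ∧ IdealPTE 7 ∧ IdealPTE 8 ∧ IdealPTE 9 ∧ IdealPTE 10 ∧ IdealPTE 12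

end Pool.Agent.L7h38.IW
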