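/-
Project IW (MP_658dbf_an): assembly of the theorem from its parts.
-/
import Pool.Agent.L7h38.IW.Stm

open MeasureTheory Set Filter Topology Polynomial

namespace Pool.Agent.L7h38.IW

/-! ### Continuity -/

theorem cont_ev (Q : ℤ[X]) : Continuous (fun θ : ℝ => ev Q θ) := by
  unfold ev
  exact (Polynomial.continuous_aeval Q).comp (by fun_prop)

theorem cont_nev (Q : ℤ[X]) : Continuous (fun θ : ℝ => ‖ev Q θ‖ ^ 2) :=
  ((cont_ev Q).norm).pow 2

theorem cont_AA : Continuous AA := by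
  unfold AA
  fun_prop

theorem AA_nonneg (θ : ℝ) : 0 ≤ AA θ := by
  unfold AA
  linarith [Real.cos_le_one θ]

theorem cont_rpow {μ : ℝ} (hμ : 0 ≤ μ) : Continuous (fun θ : ℝ => AA θ ^ μ) := by
  exact cont_AA.rpow_const (fun θ => Or.inr hμ)

theorem cont_quot {t : ℝ} (h0 : 0 < t) (h1 : t < 1) :
    Continuous (fun θ : ℝ => AA θ / ((1 - t) ^ 2 + t * AA θ)) := by
  have : ∀ θ : ℝ, (1 - t) ^ 2 + t * AA θ ≠ 0 := by
    intro θ
    have h2 : 0 < (1 - t) ^ 2 := by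
      have : 0 < 1 - t := by linarith
      positivity
    have h3 : 0 ≤ t * AA θ := mul_nonneg h0.le (AA_nonneg θ)
    linarith
  exact cont_AA.div (by have := cont_AA; fun_prop) this

theorem exists_t {s : ℝ} (hs : 0 < s) : ∃ t : ℝ, 0 < t ∧ t < 1 ∧ (1 - t) ^ 2 = t * s := by
  set r := Real.sqrt ((2 + s) ^ 2 - 4) with hr
  have hnn : 0 ≤ (2 + s) ^ 2 - 4 := by nlinarith
  have hr2 : r ^ 2 = (2 + s) ^ 2 - 4 := Real.sq_sqrt hnn
  have hr0 : 0 ≤ r := Real.sqrt_nonneg _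
  have hlt : r < 2 + s := by nlinarith
  have hgt : s < r := by nlinarith
  refine ⟨(2 + s - r) / 2, by linarith, by linarith, ?_⟩
  nlinarith

/-- The form of the quotient. -/
theorem quot_eq {s t : ℝ} (hs : 0 < s) (ht : 0 < t) (h : (1 - t) ^ 2 = t * s) (θ : ℝ) :
    AA θ / (s + AA θ) = t * (AA θ / ((1 - t) ^ 2 + t * AA θ)) := by
  have h1 : s + AA θ ≠ 0 := by have := AA_nonneg θ; linarith
  rw [h, ← mul_add, mul_div_assoc']
  rw [mul_div_mul_left _ _ ht.ne']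

theorem int_split {t : ℝ} (h0 : 0 < t) (h1 : t < 1) (Q : ℤ[X]) (a b : ℝ)
    (hTL : S_TL) (hPK : S_PK) :
    (∫ θ in (-Real.pi)..Real.pi, AA θ / ((1 - t) ^ 2 + t * AA θ) *
      (‖ev Q θ‖ ^ 2 - a - b * Real.cos θ)) =
      4 * Real.pi / (1 + t) * (cost t 0 (cl Q) - a + b * (1 - t) / 2) := by
  have hc := cont_quot h0 h1
  have hn := cont_nev Q
  have e1 : (fun θ : ℝ => AA θ / ((1 - t) ^ 2 + t * AA θ) * (‖ev Q θ‖ ^ 2 - a - b * Real.cos θ)) =
      fun θ => (AA θ / ((1 - t) ^ 2 + t * AA θ) * ‖ev Q θ‖ ^ 2 -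
        (AA θ / ((1 - t) ^ 2 + t * AA θ)) * a) -
        (AA θ / ((1 - t) ^ 2 + t * AA θ) * Real.cos θ) * b := by
    funext θ; ring
  rw [e1, intervalIntegral.integral_sub, intervalIntegral.integral_sub,
    intervalIntegral.integral_mul_const, intervalIntegral.integral_mul_const,
    hTL t h0 h1 Q, (hPK t h0 h1).1]
  · have h2 := (hPK t h0 h1).2 0
    simp only [Nat.cast_zero, zero_add, one_mul, pow_zero, mul_one] at h2
    rw [h2]
    have : (1 + t) ≠ 0 := by linarith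
    field_simp
    ring
  · exact (hc.mul hn).intervalIntegrable _ _
  · exact (hc.mul continuous_const).intervalIntegrable _ _
  · exact ((hc.mul hn).sub (hc.mul continuous_const)).intervalIntegrable _ _
  · exact ((hc.mul Real.continuous_cos).mul continuous_const).intervalIntegrable _ _

theorem int_split2 {μ : ℝ} (hμ : 0 ≤ μ) (Q : ℤ[X]) (a b : ℝ) (hCOS : S_COS) (hGAM : S_GAM) :
    (∫ θ in (-Real.pi)..Real.pi, AA θ ^ μ * (‖ev Q θ‖ ^ 2 - a - b * Real.cos θ)) =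
      JJ μ Q - (a - b * μ / (1 + μ)) * (2 * Real.pi * cb μ) := by
  have hc := cont_rpow hμ
  have hn := cont_nev Q
  have e1 : (fun θ : ℝ => AA θ ^ μ * (‖ev Q θ‖ ^ 2 - a - b * Real.cos θ)) =
      fun θ => (AA θ ^ μ * ‖ev Q θ‖ ^ 2 - (AA θ ^ μ) * a) - (AA θ ^ μ * Real.cos θ) * b := by
    funext θ; ring
  rw [e1, intervalIntegral.integral_sub, intervalIntegral.integral_sub,
    intervalIntegral.integral_mul_const, intervalIntegral.integral_mul_const,
    hCOS μ hμ, hGAM μ hμ]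
  · unfold JJ
    ring
  · exact (hc.mul hn).intervalIntegrable _ _
  · exact (hc.mul continuous_const).intervalIntegrable _ _
  · exact ((hc.mul hn).sub (hc.mul continuous_const)).intervalIntegrable _ _
  · exact ((hc.mul Real.continuous_cos).mul continuous_const).intervalIntegrable _ _

theorem exists_ne_cl {Q : ℤ[X]} (hQ : Q ≠ 0) : ∃ q ∈ cl Q, q ≠ 0 := by
  refine ⟨Q.coeff Q.natDegree, ?_, ?_⟩
  · unfold cl
    exact List.mem_map.2 ⟨Q.natDegree, List.mem_range.2 (Nat.lt_succ_self _), rfl⟩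
  · simpa using hQ

theorem monic_X1 (m : ℕ) {P : ℤ[X]} (hP : P.Monic) : ((X - 1) ^ m * P).Monic := by
  have : (X - 1 : ℤ[X]).Monic := by simpa using Polynomial.monic_X_sub_C (1 : ℤ)
  exact (this.pow m).mul hP

/-- The lower bound for the quadratic form. -/
theorem JJ_lower (m : ℕ) (μ : ℝ) (h0 : 0 ≤ μ) (h1 : μ < 1) (P : ℤ[X]) (hP : P.Monic)
    (hDP : S_DP) (hDP0 : S_DP0) (hDESC : S_DESC) (hPK : S_PK) (hTL : S_TL) (hFUB : S_FUB)
    (hCOS : S_COS) (hGAM : S_GAM) :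
    (if m = 0 then 2 * Real.pi * cb μ else 4 * Real.pi * cb μ * (m + μ) / (1 + μ)) ≤
      JJ μ ((X - 1) ^ m * P) := by
  set Q := (X - 1) ^ m * P with hQ
  have hQm : Q.Monic := monic_X1 m hP
  have hQ0 : Q ≠ 0 := hQm.ne_zero
  have hne := exists_ne_cl hQ0
  by_cases hm : m = 0
  · simp only [hm, if_true]
    have key : 0 ≤ ∫ θ in (-Real.pi)..Real.pi, AA θ ^ μ * (‖ev Q θ‖ ^ 2 - 1 - 0 * Real.cos θ) := by
      refine hFUB (fun θ => ‖ev Q θ‖ ^ 2 - 1 - 0 * Real.cos θ) ?_ ?_ μ h0 h1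
      · have := cont_nev Q
        fun_prop
      · intro s hs
        obtain ⟨t, ht0, ht1, ht⟩ := exists_t hs
        have e : ∀ θ : ℝ, AA θ / (s + AA θ) * (‖ev Q θ‖ ^ 2 - 1 - 0 * Real.cos θ) =
            t * (AA θ / ((1 - t) ^ 2 + t * AA θ) * (‖ev Q θ‖ ^ 2 - 1 - 0 * Real.cos θ)) := by
          intro θ
          rw [quot_eq hs ht0 ht, mul_assoc]
        simp_rw [e]
        rw [intervalIntegral.integral_const_mul, int_split ht0 ht1 Q 1 0 hTL hPK]
        have h2 := hDP0 t ht0 ht1 (cl Q) hne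
        have h3 : 0 ≤ 4 * Real.pi / (1 + t) := by
          have := Real.pi_pos
          positivity
        have h4 : 0 ≤ cost t 0 (cl Q) - 1 + 0 * (1 - t) / 2 := by
          linarith
        exact mul_nonneg ht0.le (mul_nonneg h3 h4)
    rw [int_split2 h0 Q 1 0 hCOS hGAM] at key
    have : (1 - 0 * μ / (1 + μ)) * (2 * Real.pi * cb μ) = 2 * Real.pi * cb μ := by ring
    linarith
  · simp only [hm, if_false]
    have hm1 : 1 ≤ m := Nat.one_le_iff_ne_zero.2 hm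
    obtain ⟨hs0, hs1⟩ := hDESC m P hm1 hP.ne_zero
    have hs1' : ((m : ℝ) - 1) ≤ (sc 0 0 (cl Q) : ℝ) := by
      have : ((m - 1 : ℕ) : ℝ) ≤ (sc 0 0 (cl Q) : ℝ) := by exact_mod_cast hs1
      rw [Nat.cast_sub hm1] at this
      simpa using this
    have key : 0 ≤ ∫ θ in (-Real.pi)..Real.pi, AA θ ^ μ *
        (‖ev Q θ‖ ^ 2 - 2 * m - (2 * ((m : ℝ) - 1)) * Real.cos θ) := by
      refine hFUB (fun θ => ‖ev Q θ‖ ^ 2 - 2 * m - (2 * ((m : ℝ) - 1)) * Real.cos θ) ?_ ?_ μ h0 h1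
      · have := cont_nev Q
        fun_prop
      · intro s hs
        obtain ⟨t, ht0, ht1, ht⟩ := exists_t hs
        have e : ∀ θ : ℝ, AA θ / (s + AA θ) *
            (‖ev Q θ‖ ^ 2 - 2 * m - (2 * ((m : ℝ) - 1)) * Real.cos θ) =
            t * (AA θ / ((1 - t) ^ 2 + t * AA θ) *
              (‖ev Q θ‖ ^ 2 - 2 * m - (2 * ((m : ℝ) - 1)) * Real.cos θ)) := by
          intro θ
          rw [quot_eq hs ht0 ht, mul_assoc]
        simp_rw [e]
        rw [intervalIntegral.integral_const_mul, int_split ht0 ht1 Q _ _ hTL hPK]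
        have h2 := hDP t ht0 ht1 (cl Q) hs0 hne
        have h3 : 0 ≤ 4 * Real.pi / (1 + t) := by
          have := Real.pi_pos
          positivity
        have h4 : 0 ≤ cost t 0 (cl Q) - 2 * m + (2 * ((m : ℝ) - 1)) * (1 - t) / 2 := by
          nlinarith
        exact mul_nonneg ht0.le (mul_nonneg h3 h4)
    rw [int_split2 h0 Q _ _ hCOS hGAM] at key
    have hμ : (1 + μ) ≠ 0 := by linarith
    have : (2 * (m : ℝ) - (2 * ((m : ℝ) - 1)) * μ / (1 + μ)) * (2 * Real.pi * cb μ) =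
        4 * Real.pi * cb μ * (m + μ) / (1 + μ) := by
      field_simp
      ring
    linarith

theorem ff_eq (m : ℕ) (μ : ℝ) (h0 : 0 ≤ μ) (h1 : μ < 1) :
    ff (m + μ) = if m = 0 then 2 * Real.pi * cb μ else
      4 * Real.pi * cb μ * (m + μ) / (1 + μ) := by
  have hfr : Int.fract ((m : ℝ) + μ) = μ := by
    rw [Int.fract_natCast_add]
    exact Int.fract_eq_self.2 ⟨h0, h1⟩
  unfold ff
  rw [hfr]
  by_cases hm : m = 0
  · subst hm
    simp [h1]
  · have hm1 : (1 : ℝ) ≤ m := by exact_mod_cast Nat.one_le_iff_ne_zero.2 hm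
    have : ¬ ((m : ℝ) + μ < 1) := by linarith
    simp [this, hm]

theorem dec (lam : ℝ) (h : 0 < lam) : ∃ (m : ℕ) (μ : ℝ), 0 ≤ μ ∧ μ < 1 ∧ lam = m + μ := by
  refine ⟨⌊lam⌋₊, lam - ⌊lam⌋₊, ?_, ?_, by ring⟩
  · have := Nat.floor_le h.le
    linarith
  · have := Nat.lt_floor_add_one lam
    linarith

theorem wint_nonneg (lam : ℝ) (P : ℤ[X]) : 0 ≤ wint lam P := by
  unfold wint
  refine intervalIntegral.integral_nonneg (by linarith [Real.pi_pos]) ?_
  intro θ _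
  positivity

theorem bdd_II (lam : ℝ) : BddBelow {x | ∃ P : ℤ[X], P.Monic ∧ x = wint lam P} :=
  ⟨0, by rintro x ⟨P, _, rfl⟩; exact wint_nonneg lam P⟩

theorem ne_II (lam : ℝ) : Set.Nonempty {x | ∃ P : ℤ[X], P.Monic ∧ x = wint lam P} :=
  ⟨wint lam 1, 1, Polynomial.monic_one, rfl⟩

/-- The lower bound. -/
theorem wint_lower (lam : ℝ) (hl : 0 < lam) (P : ℤ[X]) (hP : P.Monic)
    (hDP : S_DP) (hDP0 : S_DP0) (hDESC : S_DESC) (hPK : S_PK) (hTL : S_TL) (hFUB : S_FUB)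
    (hCOS : S_COS) (hGAM : S_GAM) (hRED : S_RED) :
    ff lam ≤ wint lam P := by
  obtain ⟨m, μ, h0, h1, rfl⟩ := dec lam hl
  rw [ff_eq m μ h0 h1, hRED m μ h0 P]
  exact JJ_lower m μ h0 h1 P hP hDP hDP0 hDESC hPK hTL hFUB hCOS hGAM

theorem II_lower (lam : ℝ) (hl : 0 < lam)
    (hDP : S_DP) (hDP0 : S_DP0) (hDESC : S_DESC) (hPK : S_PK) (hTL : S_TL) (hFUB : S_FUB)
    (hCOS : S_COS) (hGAM : S_GAM) (hRED : S_RED) :
    ff lam ≤ II lam := by
  unfold II
  refine le_csInf (ne_II lam) ?_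
  rintro x ⟨P, hP, rfl⟩
  exact wint_lower lam hl P hP hDP hDP0 hDESC hPK hTL hFUB hCOS hGAM hRED

/-! ### The upper bound -/

theorem II_le (lam : ℝ) (P : ℤ[X]) (hP : P.Monic) : II lam ≤ wint lam P :=
  csInf_le (bdd_II lam) ⟨P, hP, rfl⟩

theorem cc_zero (μ : ℝ) (hμ : 0 ≤ μ) (hGAM : S_GAM) : cc μ 0 = 2 * Real.pi * cb μ := by
  unfold cc
  simpa using hGAM μ hμ

theorem cc_one (μ : ℝ) (hμ : 0 ≤ μ) (hCOS : S_COS) (hGAM : S_GAM) :
    cc μ 1 = - (μ / (1 + μ)) * (2 * Real.pi * cb μ) := by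
  unfold cc
  have := hCOS μ hμ
  rw [hGAM μ hμ] at this
  simpa using this

/-- `λ < 1`. -/
theorem upper_zero (μ : ℝ) (h0 : 0 ≤ μ) (h1 : μ < 1) (hGAM : S_GAM) (hRED : S_RED) :
    II (((0 : ℕ) : ℝ) + μ) ≤ ff (((0 : ℕ) : ℝ) + μ) := by
  refine (II_le _ 1 Polynomial.monic_one).trans ?_
  rw [hRED 0 μ h0 1, ff_eq 0 μ h0 h1]
  simp only [pow_zero, mul_one, if_true]
  unfold JJ ev
  simp only [map_one, norm_one, one_pow, mul_one]
  exact (hGAM μ h0).le

theorem natDegree_TQ (m : ℕ) (hm : 1 ≤ m) (p : ℕ → ℕ) (hp : ∀ i < m, p i + 2 ≤ p (i + 1)) :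
    (TQ m p).natDegree = p m ∧ (TQ m p).leadingCoeff = (-1) ^ m := by
  have hmono : ∀ i ≤ m, ∀ j < i, p j + 2 ≤ p i := by
    intro i
    induction i with
    | zero => intro _ j hj; omega
    | succ n ih =>
      intro hn j hj
      rcases Nat.lt_succ_iff_lt_or_eq.1 hj with h | h
      · have := ih (by omega) j h
        have := hp n (by omega)
        omega
      · subst h
        exact hp j (by omega)
  have hc : ∀ N, p m ≤ N → (TQ m p).coeff N = if N = p m then (-1) ^ m else 0 := by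
    intro N hN
    unfold TQ
    rw [Polynomial.coeff_add, Polynomial.coeff_add, Polynomial.finsetSum_coeff]
    have h1 : (X ^ p 0 : ℤ[X]).coeff N = 0 := by
      rw [Polynomial.coeff_X_pow]
      have := hmono m le_rfl 0 (by omega)
      rw [if_neg (by omega)]
    have h2 : ∑ i ∈ Finset.Ico 1 m, ((-1) ^ i * (X ^ p i + X ^ (p i + 1)) : ℤ[X]).coeff N = 0 := by
      refine Finset.sum_eq_zero ?_
      intro i hi
      rw [Finset.mem_Ico] at hi
      have h3 := hmono m le_rfl i hi.2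
      have e : ((-1) ^ i * (X ^ p i + X ^ (p i + 1)) : ℤ[X]) =
          C ((-1) ^ i) * (X ^ p i + X ^ (p i + 1)) := by simp
      rw [e, Polynomial.coeff_C_mul, Polynomial.coeff_add, Polynomial.coeff_X_pow,
        Polynomial.coeff_X_pow, if_neg (by omega), if_neg (by omega)]
      simp
    have h4 : ((-1) ^ m * X ^ p m : ℤ[X]).coeff N = if N = p m then (-1) ^ m else 0 := by
      have e : ((-1) ^ m * X ^ p m : ℤ[X]) = C ((-1) ^ m) * X ^ p m := by simp
      rw [e, Polynomial.coeff_C_mul, Polynomial.coeff_X_pow]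
      split_ifs <;> simp
    rw [h1, h2, h4]
    ring
  have hd : (TQ m p).natDegree = p m := by
    refine Polynomial.natDegree_eq_of_le_of_coeff_ne_zero ?_ ?_
    · rw [Polynomial.natDegree_le_iff_coeff_eq_zero]
      intro N hN
      rw [hc N hN.le, if_neg (by omega)]
    · rw [hc _ le_rfl, if_pos rfl]
      exact pow_ne_zero _ (by norm_num)
  refine ⟨hd, ?_⟩
  unfold Polynomial.leadingCoeff
  rw [hd, hc _ le_rfl, if_pos rfl]

theorem JJ_neg (μ : ℝ) (Q : ℤ[X]) (m : ℕ) : JJ μ ((-1) ^ m * Q) = JJ μ Q := by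
  unfold JJ ev
  congr 1
  funext θ
  rw [map_mul, map_pow, map_neg, map_one, norm_mul, norm_pow, norm_neg, norm_one, one_pow, one_mul]

theorem upper_tight (m : ℕ) (hm : 1 ≤ m) (μ : ℝ) (h0 : 0 ≤ μ) (h1 : μ < 1) (hT : Tight m)
    (hLIM : S_LIM) (hCOS : S_COS) (hGAM : S_GAM) (hRED : S_RED) :
    II ((m : ℝ) + μ) ≤ ff ((m : ℝ) + μ) := by
  refine le_of_forall_pos_le_add ?_
  intro ε hε
  obtain ⟨K, hK⟩ := hLIM m hm μ h0 ε hε
  obtain ⟨p, hp, R, hR⟩ := hT (max K 2)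
  have hpK : ∀ i < m, p i + K ≤ p (i + 1) := fun i hi =>
    (Nat.add_le_add_left (le_max_left K 2) _).trans (hp i hi)
  have hp2 : ∀ i < m, p i + 2 ≤ p (i + 1) := fun i hi =>
    (Nat.add_le_add_left (le_max_right K 2) _).trans (hp i hi)
  have hlead := (natDegree_TQ m hm p hp2).2
  have hmX : ((X - 1 : ℤ[X]) ^ m).Monic := by
    have : (X - 1 : ℤ[X]).Monic := by simpa using Polynomial.monic_X_sub_C (1 : ℤ)
    exact this.pow m
  have hRl : R.leadingCoeff = (-1) ^ m := by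
    rw [hR, Polynomial.leadingCoeff_mul, hmX.leadingCoeff, one_mul] at hlead
    exact hlead
  have hP : ((-1) ^ m * R : ℤ[X]).Monic := by
    have e : ((-1) ^ m : ℤ[X]) = C ((-1) ^ m) := by simp
    unfold Polynomial.Monic
    rw [e, Polynomial.leadingCoeff_mul, Polynomial.leadingCoeff_C, hRl, ← mul_pow]
    simp
  refine (II_le _ _ hP).trans ?_
  rw [hRED m μ h0, mul_left_comm, ← hR, JJ_neg]
  refine (hK p hpK).trans ?_
  rw [ff_eq m μ h0 h1, if_neg (by omega), cc_zero μ h0 hGAM, cc_one μ h0 hCOS hGAM]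
  have hμ : (1 + μ) ≠ 0 := by linarith
  have : 2 * (m : ℝ) * (2 * Real.pi * cb μ) +
      2 * ((m : ℝ) - 1) * (-(μ / (1 + μ)) * (2 * Real.pi * cb μ)) =
      4 * Real.pi * cb μ * (m + μ) / (1 + μ) := by
    field_simp
    ring
  linarith

/-! ### Integers -/

theorem cb_zero : cb 0 = 1 := by
  unfold cb
  simp [Real.Gamma_one]

theorem cc_zero_pos (k : ℕ) (hk : 1 ≤ k) : cc 0 k = 0 := by
  unfold cc
  simp only [Real.rpow_zero, one_mul]
  have hk' : (k : ℝ) ≠ 0 := by exact_mod_cast (by omega : k ≠ 0)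
  rw [intervalIntegral.integral_comp_mul_left (fun x => Real.cos x) hk', integral_cos]
  have h1 : Real.sin ((k : ℝ) * Real.pi) = 0 := Real.sin_nat_mul_pi k
  have h2 : Real.sin ((k : ℝ) * -Real.pi) = 0 := by
    rw [mul_neg, Real.sin_neg, h1, neg_zero]
  rw [h1, h2]
  simp

theorem cc_zero_zero : cc 0 0 = 2 * Real.pi := by
  unfold cc
  simp
  ring

theorem JJ_zero (Q : ℤ[X]) (hQF : S_QF) :
    JJ 0 Q = 2 * Real.pi * ((∑ i ∈ Finset.range (Q.natDegree + 1), Q.coeff i ^ 2 : ℤ) : ℝ) := by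
  rw [hQF 0 le_rfl Q]
  have : ∀ i ∈ Finset.range (Q.natDegree + 1), ∑ j ∈ Finset.range (Q.natDegree + 1),
      (Q.coeff i : ℝ) * Q.coeff j * cc 0 ((i - j) + (j - i)) =
      2 * Real.pi * (Q.coeff i : ℝ) ^ 2 := by
    intro i hi
    rw [Finset.sum_eq_single i]
    · simp only [Nat.sub_self, add_zero, cc_zero_zero]
      ring
    · intro j _ hj
      rw [cc_zero_pos _ (by omega)]
      ring
    · intro h; exact absurd hi h
  rw [Finset.sum_congr rfl this, ← Finset.mul_sum]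
  push_cast
  rfl

theorem ff_nat (m : ℕ) (hm : 1 ≤ m) : ff m = 4 * Real.pi * m := by
  have := ff_eq m 0 le_rfl one_pos
  rw [add_zero, if_neg (by omega), cb_zero] at this
  rw [this]
  ring

theorem upper_ideal (m : ℕ) (hm : 1 ≤ m) (hI : IdealPTE m) (hPTE : S_PTE) (hQF : S_QF)
    (hRED : S_RED) : II m ≤ ff m := by
  obtain ⟨P, hP, hs⟩ := (hPTE m hm).1 hI
  refine (II_le _ P hP).trans ?_
  have h1 := hRED m 0 le_rfl P
  rw [add_zero] at h1
  rw [h1, JJ_zero _ hQF, hs, ff_nat m hm]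
  push_cast
  linarith

/-- The integers. -/
theorem int_iff (m : ℕ) (hm : 1 ≤ m) (hPTE : S_PTE) (hQF : S_QF)
    (hDP : S_DP) (hDP0 : S_DP0) (hDESC : S_DESC) (hPK : S_PK) (hTL : S_TL) (hFUB : S_FUB)
    (hCOS : S_COS) (hGAM : S_GAM) (hRED : S_RED) :
    II m = 4 * Real.pi * m ↔ IdealPTE m := by
  have hpi := Real.pi_pos
  have hm0 : (0 : ℝ) < m := by exact_mod_cast hm
  constructor
  · intro h
    have hlt : II m < 4 * Real.pi * m + Real.pi := by rw [h]; linarith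
    obtain ⟨x, ⟨P, hP, rfl⟩, hx⟩ := exists_lt_of_csInf_lt (ne_II (m : ℝ)) hlt
    have hlow := wint_lower (m : ℝ) hm0 P hP hDP hDP0 hDESC hPK hTL hFUB hCOS hGAM hRED
    rw [ff_nat m hm] at hlow
    have h1 := hRED m 0 le_rfl P
    rw [add_zero] at h1
    rw [h1, JJ_zero _ hQF] at hlow hx
    refine (hPTE m hm).2 ⟨P, hP, ?_⟩
    set S : ℤ := ∑ i ∈ Finset.range (((X - 1) ^ m * P).natDegree + 1),
      ((X - 1) ^ m * P).coeff i ^ 2 with hS
    have h2 : (2 * (m : ℝ)) ≤ S := by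
      have : 2 * Real.pi * (2 * (m : ℝ)) ≤ 2 * Real.pi * S := by linarith
      exact le_of_mul_le_mul_left this (by positivity)
    have h3 : (S : ℝ) < 2 * m + 1 := by
      have : 2 * Real.pi * (S : ℝ) < 2 * Real.pi * (2 * m + 1) := by nlinarith
      exact lt_of_mul_lt_mul_left this (by positivity)
    have h2' : 2 * (m : ℤ) ≤ S := by exact_mod_cast h2
    have h3' : S < 2 * (m : ℤ) + 1 := by exact_mod_cast h3
    omega
  · intro hI
    rw [← ff_nat m hm]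
    exact le_antisymm (upper_ideal m hm hI hPTE hQF hRED)
      (II_lower (m : ℝ) hm0 hDP hDP0 hDESC hPK hTL hFUB hCOS hGAM hRED)

/-- The theorem from all parts. -/
theorem main (hDP : S_DP) (hDP0 : S_DP0) (hDESC : S_DESC) (hPK : S_PK) (hTL : S_TL)
    (hFUB : S_FUB) (hCOS : S_COS) (hGAM : S_GAM) (hQF : S_QF) (hRED : S_RED) (hLIM : S_LIM)
    (h1 : S_T1) (h2 : S_T2) (h3 : S_T3) (h4 : S_T4) (h5 : S_T5) (hPTE : S_PTE) (hVAL : S_VAL) :
    (∀ lam : ℝ, 0 < lam → ff lam ≤ II lam) ∧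
    (∀ lam : ℝ, 0 < lam → lam ≤ 6 → II lam = ff lam) ∧
    (∀ m : ℕ, 1 ≤ m → (II m = 4 * Real.pi * m ↔ IdealPTE m)) ∧
    (∀ m : ℕ, m ∈ ({7, 8, 9, 10, 12} : Set ℕ) → II m = 4 * Real.pi * m) := by
  have hlow : ∀ lam : ℝ, 0 < lam → ff lam ≤ II lam := fun lam hl =>
    II_lower lam hl hDP hDP0 hDESC hPK hTL hFUB hCOS hGAM hRED
  have hint : ∀ m : ℕ, 1 ≤ m → (II m = 4 * Real.pi * m ↔ IdealPTE m) := fun m hm =>
    int_iff m hm hPTE hQF hDP hDP0 hDESC hPK hTL hFUB hCOS hGAM hRED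
  refine ⟨hlow, ?_, hint, ?_⟩
  · intro lam hl h6
    rcases eq_or_lt_of_le h6 with h | h
    · subst h
      have := (hint 6 (by norm_num)).2 hVAL.1
      have h7 := ff_nat 6 (by norm_num)
      push_cast at this h7
      rw [this, h7]
    · refine le_antisymm ?_ (hlow lam hl)
      obtain ⟨m, μ, hμ0, hμ1, rfl⟩ := dec lam hl
      have hm6 : (m : ℝ) < 6 := by linarith
      have hm6' : m < 6 := by exact_mod_cast hm6
      rcases Nat.eq_zero_or_pos m with hm | hm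
      · subst hm
        exact upper_zero μ hμ0 hμ1 hGAM hRED
      · have hT : Tight m := by
          interval_cases m
          · exact h1
          · exact h2
          · exact h3
          · exact h4
          · exact h5
        exact upper_tight m hm μ hμ0 hμ1 hT hLIM hCOS hGAM hRED
  · intro m hm
    obtain ⟨_, v7, v8, v9, v10, v12⟩ := hVAL
    simp only [Set.mem_insert_iff, Set.mem_singleton_iff] at hm
    rcases hm with rfl | rfl | rfl | rfl | rfl
    · exact (hint 7 (by norm_num)).2 v7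
    · exact (hint 8 (by norm_num)).2 v8
    · exact (hint 9 (by norm_num)).2 v9
    · exact (hint 10 (by norm_num)).2 v10
    · exact (hint 12 (by norm_num)).2 v12

end Pool.Agent.L7h38.IW
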