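/-
Project IW (MP_658dbf_an): the parts RED, QF, RL, T1, T2, T3.
-/
import Pool.Agent.L7h38.IW.Stm

open MeasureTheory Set Filter Topology Polynomial

namespace Pool.Agent.L7h38.IW

theorem norm_one_sub_sq (θ : ℝ) : ‖1 - Complex.exp (θ * Complex.I)‖ ^ 2 = AA θ := by
  rw [← Complex.normSq_eq_norm_sq, Complex.normSq_apply]
  have hr : (Complex.exp (θ * Complex.I)).re = Real.cos θ := Complex.exp_ofReal_mul_I_re θ
  have hi : (Complex.exp (θ * Complex.I)).im = Real.sin θ := Complex.exp_ofReal_mul_I_im θ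
  rw [Complex.sub_re, Complex.sub_im, hr, hi, Complex.one_re, Complex.one_im]
  unfold AA
  nlinarith [Real.sin_sq_add_cos_sq θ]

theorem s_RED : S_RED := by
  intro m μ hμ P
  unfold wint JJ
  congr 1
  funext θ
  have hA : 0 ≤ AA θ := by
    unfold AA
    linarith [Real.cos_le_one θ]
  have h1 : ‖1 - Complex.exp (θ * Complex.I)‖ ^ (2 * ((m : ℝ) + μ)) = AA θ ^ m * AA θ ^ μ := by
    rw [Real.rpow_mul (norm_nonneg _), Real.rpow_two, norm_one_sub_sq,
      Real.rpow_add_of_nonneg hA (Nat.cast_nonneg m) hμ, Real.rpow_natCast]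
  have h2 : ‖ev ((X - 1) ^ m * P) θ‖ ^ 2 = AA θ ^ m * ‖ev P θ‖ ^ 2 := by
    unfold ev
    rw [map_mul, map_pow, map_sub, map_one, Polynomial.aeval_X, norm_mul, norm_pow, mul_pow,
      norm_sub_rev, ← pow_mul, mul_comm m 2, pow_mul, norm_one_sub_sq]
  rw [h1, h2]
  ring

theorem ev_re (Q : ℤ[X]) (θ : ℝ) :
    (ev Q θ).re = ∑ i ∈ Finset.range (Q.natDegree + 1), (Q.coeff i : ℝ) * Real.cos (i * θ) := by
  unfold ev
  rw [Polynomial.aeval_eq_sum_range, Complex.re_sum]
  refine Finset.sum_congr rfl ?_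
  intro i _
  rw [← Complex.exp_nat_mul]
  have : (i : ℂ) * ((θ : ℂ) * Complex.I) = ((i * θ : ℝ) : ℂ) * Complex.I := by
    push_cast; ring
  rw [this, zsmul_eq_mul, Complex.mul_re, Complex.intCast_re, Complex.intCast_im, zero_mul,
    sub_zero, Complex.exp_ofReal_mul_I_re]

theorem ev_im (Q : ℤ[X]) (θ : ℝ) :
    (ev Q θ).im = ∑ i ∈ Finset.range (Q.natDegree + 1), (Q.coeff i : ℝ) * Real.sin (i * θ) := by
  unfold ev
  rw [Polynomial.aeval_eq_sum_range, Complex.im_sum]
  refine Finset.sum_congr rfl ?_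
  intro i _
  rw [← Complex.exp_nat_mul]
  have : (i : ℂ) * ((θ : ℂ) * Complex.I) = ((i * θ : ℝ) : ℂ) * Complex.I := by
    push_cast; ring
  rw [this, zsmul_eq_mul, Complex.mul_im, Complex.intCast_re, Complex.intCast_im, zero_mul,
    add_zero, Complex.exp_ofReal_mul_I_im]

theorem cos_abs (i j : ℕ) (θ : ℝ) :
    Real.cos (((i - j) + (j - i) : ℕ) * θ) =
      Real.cos (i * θ) * Real.cos (j * θ) + Real.sin (i * θ) * Real.sin (j * θ) := by
  rcases le_total i j with h | h
  · obtain ⟨k, rfl⟩ := Nat.exists_eq_add_of_le h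
    have : ((i - (i + k)) + (i + k - i) : ℕ) = k := by omega
    rw [this, ← Real.cos_sub, ← Real.cos_neg]
    congr 1
    push_cast
    ring
  · obtain ⟨k, rfl⟩ := Nat.exists_eq_add_of_le h
    have : ((j + k - j) + (j - (j + k)) : ℕ) = k := by omega
    rw [this, ← Real.cos_sub]
    congr 1
    push_cast
    ring

theorem norm_ev_sq (Q : ℤ[X]) (θ : ℝ) :
    ‖ev Q θ‖ ^ 2 = ∑ i ∈ Finset.range (Q.natDegree + 1), ∑ j ∈ Finset.range (Q.natDegree + 1),
      (Q.coeff i : ℝ) * Q.coeff j * Real.cos (((i - j) + (j - i) : ℕ) * θ) := by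
  rw [← Complex.normSq_eq_norm_sq, Complex.normSq_apply, ev_re, ev_im, Finset.sum_mul_sum,
    Finset.sum_mul_sum, ← Finset.sum_add_distrib]
  refine Finset.sum_congr rfl ?_
  intro i _
  rw [← Finset.sum_add_distrib]
  refine Finset.sum_congr rfl ?_
  intro j _
  rw [cos_abs]
  ring

theorem s_QF : S_QF := by
  intro μ hμ Q
  have hc : Continuous (fun θ : ℝ => AA θ ^ μ) := by
    refine Continuous.rpow_const ?_ (fun θ => Or.inr hμ)
    unfold AA
    fun_prop
  unfold JJ
  simp_rw [norm_ev_sq Q, Finset.mul_sum]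
  rw [intervalIntegral.integral_finsetSum]
  · refine Finset.sum_congr rfl ?_
    intro i _
    rw [intervalIntegral.integral_finsetSum]
    · refine Finset.sum_congr rfl ?_
      intro j _
      unfold cc
      rw [← intervalIntegral.integral_const_mul]
      congr 1
      funext θ
      ring
    · intro j _
      refine Continuous.intervalIntegrable ?_ _ _
      fun_prop
  · intro i _
    refine Continuous.intervalIntegrable ?_ _ _
    fun_prop

theorem s_T1 : S_T1 := by
  intro K
  refine ⟨fun i => i * K, ?_, ?_⟩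
  · intro i _
    show i * K + K ≤ (i + 1) * K
    ring_nf
    exact le_rfl
  · have : TQ 1 (fun i => i * K) = 1 - X ^ K := by
      unfold TQ
      simp
      ring
    rw [this, pow_one]
    have := sub_dvd_pow_sub_pow (X : ℤ[X]) 1 K
    rw [one_pow] at this
    rw [← neg_sub (X ^ K) 1]
    exact (dvd_neg).2 this

theorem dvd1 (n : ℕ) : (X - 1 : ℤ[X]) ∣ 1 - X ^ n := by
  have := sub_dvd_pow_sub_pow (X : ℤ[X]) 1 n
  rw [one_pow] at this
  rw [← neg_sub (X ^ n) 1]
  exact (dvd_neg).2 this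

theorem s_T2 : S_T2 := by
  intro K
  refine ⟨fun i => if i = 0 then 0 else if i = 1 then K else 2 * K + 1, ?_, ?_⟩
  · intro i hi
    interval_cases i
    · simp
    · simp
      omega
  · have : TQ 2 (fun i => if i = 0 then 0 else if i = 1 then K else 2 * K + 1) =
        (1 - X ^ K) * (1 - X ^ (K + 1)) := by
      unfold TQ
      rw [show Finset.Ico 1 2 = {1} from rfl]
      simp
      ring
    rw [this, pow_two]
    exact mul_dvd_mul (dvd1 _) (dvd1 _)

theorem s_T3 : S_T3 := by
  intro K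
  refine ⟨fun i => if i = 0 then 0 else if i = 1 then K else if i = 2 then 3 * K + 1 else
    4 * K + 2, ?_, ?_⟩
  · intro i hi
    interval_cases i
    · simp
    · simp
      omega
    · simp
      omega
  · have : TQ 3 (fun i => if i = 0 then 0 else if i = 1 then K else if i = 2 then 3 * K + 1 else
        4 * K + 2) =
        (1 - X ^ K) * (1 - X ^ (K + 1)) * (1 - X ^ (2 * K + 1)) := by
      unfold TQ
      rw [show Finset.Ico 1 3 = {1, 2} from rfl, Finset.sum_pair (by norm_num)]
      simp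
      ring
    rw [this, show (X - 1 : ℤ[X]) ^ 3 = (X - 1) * (X - 1) * (X - 1) by ring]
    exact mul_dvd_mul (mul_dvd_mul (dvd1 _) (dvd1 _)) (dvd1 _)

/-- Riemann-Lebesgue. -/
theorem s_RL : S_RL := by
  intro μ hμ
  have hc : Continuous (fun θ : ℝ => AA θ ^ μ) := by
    refine Continuous.rpow_const ?_ (fun θ => Or.inr hμ)
    unfold AA
    fun_prop
  set f : ℝ → ℂ := (Set.Ioc (-Real.pi) Real.pi).indicator (fun θ => ((AA θ ^ μ : ℝ) : ℂ)) with hf
  have hRL := Real.tendsto_integral_exp_smul_cocompact f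
  have hlin : Tendsto (fun k : ℕ => (k : ℝ) / (2 * Real.pi)) atTop (cocompact ℝ) := by
    have h1 : Tendsto (fun k : ℕ => (k : ℝ) / (2 * Real.pi)) atTop atTop :=
      tendsto_natCast_atTop_atTop.atTop_div_const (by positivity)
    exact h1.mono_right atTop_le_cocompact
  have h2 := hRL.comp hlin
  have h3 := (Complex.continuous_re.tendsto (0 : ℂ)).comp h2
  rw [Complex.zero_re] at h3
  refine h3.congr ?_
  intro k
  simp only [Function.comp]
  have hle : -Real.pi ≤ Real.pi := by linarith [Real.pi_pos]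
  have e1 : (fun v : ℝ => (Real.fourierChar (-(v * ((k : ℝ) / (2 * Real.pi))))) • f v) =
      (Set.Ioc (-Real.pi) Real.pi).indicator
        (fun θ : ℝ => Complex.exp (((-(k * θ) : ℝ) : ℂ) * Complex.I) * ((AA θ ^ μ : ℝ) : ℂ)) := by
    funext v
    rw [hf]
    by_cases hv : v ∈ Set.Ioc (-Real.pi) Real.pi
    · rw [Set.indicator_of_mem hv, Set.indicator_of_mem hv, Circle.smul_def,
        Real.fourierChar_apply, smul_eq_mul]
      congr 3
      have : (2 * (Real.pi : ℂ)) ≠ 0 := by
        have := Real.pi_ne_zero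
        simp [this]
      push_cast
      field_simp
    · rw [Set.indicator_of_notMem hv, Set.indicator_of_notMem hv, smul_zero]
  rw [e1, MeasureTheory.integral_indicator measurableSet_Ioc, ← intervalIntegral.integral_of_le hle]
  have hint : IntervalIntegrable (fun θ : ℝ => Complex.exp (((-(k * θ) : ℝ) : ℂ) * Complex.I) *
      ((AA θ ^ μ : ℝ) : ℂ)) volume (-Real.pi) Real.pi := by
    refine Continuous.intervalIntegrable ?_ _ _
    have : Continuous (fun θ : ℝ => ((AA θ ^ μ : ℝ) : ℂ)) := Complex.continuous_ofReal.comp hc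
    fun_prop
  have h5 := Complex.reCLM.intervalIntegral_comp_comm hint
  simp only [Complex.reCLM_apply] at h5
  rw [← h5]
  unfold cc
  congr 1
  funext θ
  rw [Complex.re_mul_ofReal, Complex.exp_ofReal_mul_I_re, Real.cos_neg]
  ring

end Pool.Agent.L7h38.IW
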