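/-
Project IW (MP_658dbf_an): the dilation inequality `I(m + μ) ≤ cb(μ) I(m)` and the quadratic upper
bound for all integers (pigeonhole principle).
-/
import Pool.Agent.L7h38.IW.Asm
import Pool.Agent.L7h38.IW.Red

open MeasureTheory Set Filter Topology Polynomial

namespace Pool.Agent.L7h38.IW

theorem ev_expand (K : ℕ) (Q : ℤ[X]) (θ : ℝ) : ev (Polynomial.expand ℤ K Q) θ = ev Q (K * θ) := by
  unfold ev
  rw [Polynomial.expand_aeval, ← Complex.exp_nat_mul]
  congr 2
  push_cast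
  ring_nf

theorem JJ_expand (μ : ℝ) (hμ : 0 ≤ μ) (K : ℕ) (Q : ℤ[X]) :
    JJ μ (Polynomial.expand ℤ K Q) =
      ∑ i ∈ Finset.range (Q.natDegree + 1), ∑ j ∈ Finset.range (Q.natDegree + 1),
        (Q.coeff i : ℝ) * Q.coeff j * cc μ (((i - j) + (j - i)) * K) := by
  have hc : Continuous (fun θ : ℝ => AA θ ^ μ) := cont_rpow hμ
  unfold JJ
  simp_rw [ev_expand, norm_ev_sq Q, Finset.mul_sum]
  rw [intervalIntegral.integral_finsetSum]
  · refine Finset.sum_congr rfl ?_
    intro i _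
    rw [intervalIntegral.integral_finsetSum]
    · refine Finset.sum_congr rfl ?_
      intro j _
      unfold cc
      rw [← intervalIntegral.integral_const_mul]
      congr 1
      funext θ
      have e : ((((i - j) + (j - i)) * K : ℕ) : ℝ) * θ = (((i - j) + (j - i) : ℕ) : ℝ) * (K * θ) := by
        rw [Nat.cast_mul]
        ring
      rw [e]
      ring
    · intro j _
      refine Continuous.intervalIntegrable ?_ _ _
      fun_prop
  · intro i _
    refine Continuous.intervalIntegrable ?_ _ _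
    fun_prop

theorem JJ_expand_tendsto (μ : ℝ) (hμ : 0 ≤ μ) (Q : ℤ[X]) (hGAM : S_GAM) :
    Tendsto (fun K : ℕ => JJ μ (Polynomial.expand ℤ K Q)) atTop
      (𝓝 (2 * Real.pi * cb μ *
        ((∑ i ∈ Finset.range (Q.natDegree + 1), Q.coeff i ^ 2 : ℤ) : ℝ))) := by
  have h1 : ∀ i ∈ Finset.range (Q.natDegree + 1), ∀ j ∈ Finset.range (Q.natDegree + 1),
      Tendsto (fun K : ℕ => (Q.coeff i : ℝ) * Q.coeff j * cc μ (((i - j) + (j - i)) * K)) atTop
        (𝓝 (if i = j then (Q.coeff i : ℝ) ^ 2 * (2 * Real.pi * cb μ) else 0)) := by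
    intro i _ j _
    by_cases hij : i = j
    · subst hij
      simp only [Nat.sub_self, add_zero, zero_mul, if_true, cc_zero μ hμ hGAM]
      rw [pow_two]
      exact tendsto_const_nhds
    · rw [if_neg hij]
      have hpos : 0 < (i - j) + (j - i) := by omega
      have h2 : Tendsto (fun K : ℕ => ((i - j) + (j - i)) * K) atTop atTop :=
        tendsto_id.const_mul_atTop' hpos
      have h3 := (s_RL μ hμ).comp h2
      have h4 := h3.const_mul ((Q.coeff i : ℝ) * Q.coeff j)
      rw [mul_zero] at h4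
      exact h4
  have h2 : Tendsto (fun K : ℕ => ∑ i ∈ Finset.range (Q.natDegree + 1),
      ∑ j ∈ Finset.range (Q.natDegree + 1),
        (Q.coeff i : ℝ) * Q.coeff j * cc μ (((i - j) + (j - i)) * K)) atTop
      (𝓝 (∑ i ∈ Finset.range (Q.natDegree + 1), ∑ j ∈ Finset.range (Q.natDegree + 1),
        (if i = j then (Q.coeff i : ℝ) ^ 2 * (2 * Real.pi * cb μ) else 0))) :=
    tendsto_finsetSum _ fun i hi => tendsto_finsetSum _ fun j hj => h1 i hi j hj
  have e1 : (∑ i ∈ Finset.range (Q.natDegree + 1), ∑ j ∈ Finset.range (Q.natDegree + 1),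
        (if i = j then (Q.coeff i : ℝ) ^ 2 * (2 * Real.pi * cb μ) else 0)) =
      2 * Real.pi * cb μ * ((∑ i ∈ Finset.range (Q.natDegree + 1), Q.coeff i ^ 2 : ℤ) : ℝ) := by
    push_cast
    rw [Finset.mul_sum]
    refine Finset.sum_congr rfl ?_
    intro i hi
    rw [Finset.sum_ite_eq, if_pos hi]
    ring
  rw [e1] at h2
  refine h2.congr ?_
  intro K
  rw [JJ_expand μ hμ K Q]

theorem dvd_expand (m K : ℕ) (Q : ℤ[X]) (h : (X - 1) ^ m ∣ Q) :
    (X - 1) ^ m ∣ Polynomial.expand ℤ K Q := by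
  obtain ⟨R, rfl⟩ := h
  rw [map_mul, map_pow, map_sub, map_one, Polynomial.expand_X]
  refine Dvd.dvd.mul_right (pow_dvd_pow_of_dvd ?_ m) _
  have := sub_dvd_pow_sub_pow (X : ℤ[X]) 1 K
  rwa [one_pow] at this

/-- For every monic multiple `Q` of `(X - 1)^m`. -/
theorem II_le_norm (m : ℕ) (μ : ℝ) (h0 : 0 ≤ μ) (Q : ℤ[X]) (hQ : Q.Monic)
    (hd : (X - 1) ^ m ∣ Q) (hGAM : S_GAM) :
    II ((m : ℝ) + μ) ≤ 2 * Real.pi * cb μ *
        ((∑ i ∈ Finset.range (Q.natDegree + 1), Q.coeff i ^ 2 : ℤ) : ℝ) := by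
  refine ge_of_tendsto (JJ_expand_tendsto μ h0 Q hGAM) ?_
  filter_upwards [eventually_gt_atTop 0] with K hK
  obtain ⟨R, hR⟩ := dvd_expand m K Q hd
  have hE : (Polynomial.expand ℤ K Q).Monic := hQ.expand hK
  have hmX : ((X - 1 : ℤ[X]) ^ m).Monic := by
    have : (X - 1 : ℤ[X]).Monic := by simpa using Polynomial.monic_X_sub_C (1 : ℤ)
    exact this.pow m
  have hRm : R.Monic := by
    rw [hR] at hE
    exact hmX.of_mul_monic_left hE
  have := II_le ((m : ℝ) + μ) R hRm
  rwa [s_RED m μ h0 R, ← hR] at this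

/-- The dilation inequality. -/
theorem II_dil (m : ℕ) (μ : ℝ) (h0 : 0 ≤ μ) (hGAM : S_GAM) :
    II ((m : ℝ) + μ) ≤ cb μ * II m := by
  have hcb : 0 < cb μ := by
    unfold cb
    have h1 : 0 < Real.Gamma (2 * μ + 1) := Real.Gamma_pos_of_pos (by linarith)
    have h2 : 0 < Real.Gamma (μ + 1) := Real.Gamma_pos_of_pos (by linarith)
    positivity
  rw [← div_le_iff₀' hcb]
  refine le_csInf (ne_II (m : ℝ)) ?_
  rintro x ⟨P, hP, rfl⟩
  rw [div_le_iff₀' hcb]
  have h1 := II_le_norm m μ h0 ((X - 1) ^ m * P) (monic_X1 m hP) (dvd_mul_right _ _) hGAM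
  have h2 := s_RED m 0 le_rfl P
  rw [add_zero] at h2
  rw [h2, JJ_zero _ s_QF]
  linarith

/-! ### The pigeonhole principle -/

/-- The criterion for the divisibility by `(X - 1)^m`: all sums of binomial coefficients vanish. -/
theorem dvd_crit (m : ℕ) (Q : ℤ[X])
    (h : ∀ k < m, (Polynomial.taylor 1 Q).coeff k = 0) : (X - 1) ^ m ∣ Q := by
  have h1 : X ^ m ∣ Polynomial.taylor 1 Q := Polynomial.X_pow_dvd_iff.2 h
  obtain ⟨R, hR⟩ := h1
  refine ⟨Polynomial.taylor (-1) R, ?_⟩
  have h2 : Polynomial.taylor (-1) (Polynomial.taylor 1 Q) = Q := by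
    rw [Polynomial.taylor_taylor]
    simp
  rw [← h2, hR, Polynomial.taylor_mul, Polynomial.taylor_X_pow]
  simp [sub_eq_add_neg]

theorem taylor_coeff_X_pow (a k : ℕ) : (Polynomial.taylor (1 : ℤ) (X ^ a)).coeff k =
    (a.choose k : ℤ) := by
  rw [Polynomial.taylor_X_pow]
  have : (X + C (1 : ℤ)) ^ a = (1 + X) ^ a := by
    rw [map_one, add_comm]
  rw [this, Polynomial.coeff_one_add_X_pow]

/-- There are two different sets of natural numbers of the size `s`, `s > m (m - 1) / 2`, for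
which the sums of the binomial coefficients of order `< m` agree. -/
theorem pigeon (m s : ℕ) (hs : m * (m - 1) < 2 * s) : ∃ S T : Finset ℕ, S ≠ T ∧ S.card = s ∧
    T.card = s ∧ ∀ k < m, ∑ a ∈ S, a.choose k = ∑ a ∈ T, a.choose k := by
  have hs1 : 1 ≤ s := by omega
  set N : ℕ := s.factorial * 2 ^ s * (2 * s) ^ m + 2 * s + 1 with hN
  set A : Finset (Finset ℕ) := Finset.powersetCard s (Finset.range N) with hA
  set B : Finset (Fin m → ℕ) := Fintype.piFinset (fun k : Fin m =>
    if (k : ℕ) = 0 then {s} else Finset.range (s * N ^ (k : ℕ) + 1)) with hB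
  have hNs : 2 * s ≤ N := by omega
  have hN1 : 1 ≤ N := by omega
  have hcardA : A.card = N.choose s := by
    rw [hA, Finset.card_powersetCard, Finset.card_range]
  have hcardB : B.card ≤ (2 * s) ^ m * N ^ (s - 1) := by
    rw [hB, Fintype.card_piFinset]
    have h1 : ∏ k : Fin m, (if (k : ℕ) = 0 then ({s} : Finset ℕ) else
        Finset.range (s * N ^ (k : ℕ) + 1)).card ≤ ∏ k : Fin m, (2 * s * N ^ (k : ℕ)) := by
      refine Finset.prod_le_prod' ?_
      intro k _
      split_ifs with hk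
      · rw [Finset.card_singleton, hk, pow_zero]
        omega
      · rw [Finset.card_range]
        have : 1 ≤ s * N ^ (k : ℕ) := Nat.mul_pos hs1 (pow_pos hN1 _)
        rw [mul_assoc]
        omega
    refine h1.trans ?_
    rw [Finset.prod_mul_distrib, Finset.prod_const, Finset.card_univ, Fintype.card_fin,
      Finset.prod_pow_eq_pow_sum]
    refine Nat.mul_le_mul_left _ (Nat.pow_le_pow_right hN1 ?_)
    rw [Fin.sum_univ_eq_sum_range (fun i => i) m]
    have h2 := Finset.sum_range_id_mul_two m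
    omega
  have hlt : B.card < A.card := by
    rw [hcardA]
    refine hcardB.trans_lt ?_
    have h1 : (N + 1 - s) ^ s ≤ s.factorial * N.choose s := by
      have h := Nat.pow_sub_le_descFactorial N s
      rw [Nat.descFactorial_eq_factorial_mul_choose] at h
      exact h
    have h2 : N ≤ 2 * (N + 1 - s) := by omega
    have h3 : N ^ s ≤ 2 ^ s * (N + 1 - s) ^ s := by
      rw [← mul_pow]
      exact Nat.pow_le_pow_left h2 s
    have h4 : N ^ s ≤ 2 ^ s * (s.factorial * N.choose s) := h3.trans (Nat.mul_le_mul_left _ h1)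
    have h5 : N ^ s = N * N ^ (s - 1) := by
      rw [← pow_succ']
      congr 1
      omega
    have hpos : 0 < s.factorial * 2 ^ s := Nat.mul_pos (Nat.factorial_pos s) (by positivity)
    have hNp : 0 < N ^ (s - 1) := pow_pos hN1 _
    have h6 : s.factorial * 2 ^ s * ((2 * s) ^ m * N ^ (s - 1)) <
        s.factorial * 2 ^ s * N.choose s := by
      calc s.factorial * 2 ^ s * ((2 * s) ^ m * N ^ (s - 1))
          = (s.factorial * 2 ^ s * (2 * s) ^ m) * N ^ (s - 1) := by ring
        _ < N * N ^ (s - 1) := Nat.mul_lt_mul_of_pos_right (by omega) hNp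
        _ = N ^ s := h5.symm
        _ ≤ 2 ^ s * (s.factorial * N.choose s) := h4
        _ = s.factorial * 2 ^ s * N.choose s := by ring
    exact Nat.lt_of_mul_lt_mul_left h6
  have hmaps : ∀ S ∈ A, (fun k : Fin m => ∑ a ∈ S, a.choose (k : ℕ)) ∈ B := by
    intro S hS
    rw [hA, Finset.mem_powersetCard] at hS
    rw [hB, Fintype.mem_piFinset]
    intro k
    split_ifs with hk
    · rw [Finset.mem_singleton, hk]
      simp [hS.2]
    · rw [Finset.mem_range, Nat.lt_succ_iff]
      refine (Finset.sum_le_card_nsmul S _ (N ^ (k : ℕ)) ?_).trans ?_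
      · intro a ha
        have ha' : a < N := Finset.mem_range.1 (hS.1 ha)
        exact (Nat.choose_le_pow a k).trans (Nat.pow_le_pow_left ha'.le _)
      · rw [hS.2, smul_eq_mul]
  obtain ⟨S, hS, T, hT, hne, heq⟩ := Finset.exists_ne_map_eq_of_card_lt_of_maps_to hlt hmaps
  rw [hA, Finset.mem_powersetCard] at hS hT
  exact ⟨S, T, hne, hS.2, hT.2, fun k hk => congrFun heq ⟨k, hk⟩⟩

theorem exists_poly (m s : ℕ) (hs : m * (m - 1) < 2 * s) : ∃ Q : ℤ[X], Q.Monic ∧
    (X - 1) ^ m ∣ Q ∧ ∑ i ∈ Finset.range (Q.natDegree + 1), Q.coeff i ^ 2 ≤ 2 * (s : ℤ) := by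
  obtain ⟨S, T, hne, hS, hT, heq⟩ := pigeon m s hs
  set Q : ℤ[X] := ∑ a ∈ S, X ^ a - ∑ a ∈ T, X ^ a with hQ
  have hcoeff : ∀ n, Q.coeff n = (if n ∈ S then 1 else 0) - (if n ∈ T then 1 else 0) := by
    intro n
    rw [hQ, Polynomial.coeff_sub, Polynomial.finsetSum_coeff, Polynomial.finsetSum_coeff]
    simp only [Polynomial.coeff_X_pow, Finset.sum_ite_eq]
  have hQ0 : Q ≠ 0 := by
    intro h
    apply hne
    ext n
    have := hcoeff n
    rw [h, Polynomial.coeff_zero] at this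
    by_cases h1 : n ∈ S <;> by_cases h2 : n ∈ T <;> simp [h1, h2] at this ⊢
  have hsq : ∀ n, Q.coeff n ^ 2 ≤ (if n ∈ S then 1 else 0) + (if n ∈ T then 1 else 0) := by
    intro n
    rw [hcoeff n]
    by_cases h1 : n ∈ S <;> by_cases h2 : n ∈ T <;> simp [h1, h2]
  have hsum : ∑ i ∈ Finset.range (Q.natDegree + 1), Q.coeff i ^ 2 ≤ 2 * (s : ℤ) := by
    refine (Finset.sum_le_sum fun n _ => hsq n).trans ?_
    rw [Finset.sum_add_distrib, ← Finset.sum_filter, ← Finset.sum_filter]
    have h1 : ∑ a ∈ Finset.range (Q.natDegree + 1) with a ∈ S, (1 : ℤ) ≤ s := by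
      rw [Finset.sum_const, nsmul_eq_mul, mul_one]
      have : ((Finset.range (Q.natDegree + 1)).filter (fun a => a ∈ S)).card ≤ S.card :=
        Finset.card_le_card (fun a ha => (Finset.mem_filter.1 ha).2)
      rw [hS] at this
      exact_mod_cast this
    have h2 : ∑ a ∈ Finset.range (Q.natDegree + 1) with a ∈ T, (1 : ℤ) ≤ s := by
      rw [Finset.sum_const, nsmul_eq_mul, mul_one]
      have : ((Finset.range (Q.natDegree + 1)).filter (fun a => a ∈ T)).card ≤ T.card :=
        Finset.card_le_card (fun a ha => (Finset.mem_filter.1 ha).2)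
      rw [hT] at this
      exact_mod_cast this
    linarith
  have hdvd : (X - 1) ^ m ∣ Q := by
    refine dvd_crit m Q ?_
    intro k hk
    rw [hQ, map_sub, map_sum, map_sum, Polynomial.coeff_sub, Polynomial.finsetSum_coeff,
      Polynomial.finsetSum_coeff]
    simp only [taylor_coeff_X_pow]
    have := heq k hk
    rw [sub_eq_zero]
    exact_mod_cast this
  have hlead : Q.leadingCoeff = 1 ∨ Q.leadingCoeff = -1 := by
    have h0 : Q.leadingCoeff ≠ 0 := Polynomial.leadingCoeff_ne_zero.2 hQ0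
    have h1 : Q.leadingCoeff = (if Q.natDegree ∈ S then 1 else 0) -
      (if Q.natDegree ∈ T then 1 else 0) := hcoeff _
    by_cases h2 : Q.natDegree ∈ S <;> by_cases h3 : Q.natDegree ∈ T <;>
      simp [h2, h3] at h1 h0 ⊢ <;> simp [h1] at h0 ⊢
  rcases hlead with h | h
  · exact ⟨Q, h, hdvd, hsum⟩
  · refine ⟨-Q, ?_, (dvd_neg).2 hdvd, ?_⟩
    · unfold Polynomial.Monic
      rw [Polynomial.leadingCoeff_neg, h, neg_neg]
    · rw [Polynomial.natDegree_neg]
      simpa using hsum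

/-- The quadratic upper bound. -/
theorem II_quad (m : ℕ) (μ : ℝ) (h0 : 0 ≤ μ) (hGAM : S_GAM) :
    II ((m : ℝ) + μ) ≤ 2 * Real.pi * cb μ * ((m : ℝ) ^ 2 - m + 2) := by
  have hcb : 0 < cb μ := by
    unfold cb
    have h1 : 0 < Real.Gamma (2 * μ + 1) := Real.Gamma_pos_of_pos (by linarith)
    have h2 : 0 < Real.Gamma (μ + 1) := Real.Gamma_pos_of_pos (by linarith)
    positivity
  have hev : 2 ∣ m * (m - 1) := (Nat.even_mul_pred_self m).two_dvd
  obtain ⟨s0, hs0⟩ := hev
  obtain ⟨Q, hQ, hd, hsum⟩ := exists_poly m (s0 + 1) (by omega)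
  refine (II_le_norm m μ h0 Q hQ hd hGAM).trans ?_
  have h2 : (0 : ℝ) ≤ 2 * Real.pi * cb μ := by
    have := Real.pi_pos
    positivity
  refine mul_le_mul_of_nonneg_left ?_ h2
  have h3 : ((∑ i ∈ Finset.range (Q.natDegree + 1), Q.coeff i ^ 2 : ℤ) : ℝ) ≤
      2 * ((s0 : ℝ) + 1) := by
    exact_mod_cast hsum
  refine h3.trans (le_of_eq ?_)
  have h4 : ((m * (m - 1) : ℕ) : ℝ) = 2 * s0 := by
    rw [hs0]; push_cast; ring
  rcases Nat.eq_zero_or_pos m with hm | hm
  · subst hm
    have h5 : s0 = 0 := by omega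
    rw [h5]
    norm_num
  · rw [Nat.cast_mul, Nat.cast_sub hm, Nat.cast_one] at h4
    nlinarith

end Pool.Agent.L7h38.IW
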