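/-
Project IW (MP_658dbf_an): for an integer `m ≥ 1` the infimum is attained and is an integer multiple
of `4 π`.
-/
import Pool.Agent.L7h38.IW.Ext

open MeasureTheory Set Filter Topology Polynomial

namespace Pool.Agent.L7h38.IW

theorem even_sum (m : ℕ) (hm : 1 ≤ m) (P : ℤ[X]) :
    (2 : ℤ) ∣ ∑ i ∈ Finset.range (((X - 1) ^ m * P).natDegree + 1),
      ((X - 1) ^ m * P).coeff i ^ 2 := by
  set Q := (X - 1) ^ m * P with hQ
  have h1 : Q.eval 1 = 0 := by
    rw [hQ, Polynomial.eval_mul, Polynomial.eval_pow, Polynomial.eval_sub, Polynomial.eval_X,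
      Polynomial.eval_one, sub_self, zero_pow (by omega), zero_mul]
  rw [Polynomial.eval_eq_sum_range] at h1
  simp only [one_pow, mul_one] at h1
  have h2 : ∑ i ∈ Finset.range (Q.natDegree + 1), Q.coeff i ^ 2 =
      ∑ i ∈ Finset.range (Q.natDegree + 1), (Q.coeff i * (Q.coeff i - 1)) := by
    have h3 : ∑ i ∈ Finset.range (Q.natDegree + 1), Q.coeff i ^ 2 =
        ∑ i ∈ Finset.range (Q.natDegree + 1), (Q.coeff i * (Q.coeff i - 1)) +
          ∑ i ∈ Finset.range (Q.natDegree + 1), Q.coeff i := by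
      rw [← Finset.sum_add_distrib]
      exact Finset.sum_congr rfl fun i _ => by ring
    rw [h3, h1, add_zero]
  rw [h2]
  refine Finset.dvd_sum ?_
  intro i _
  exact (Int.even_mul_pred_self (Q.coeff i)).two_dvd

theorem attained (m : ℕ) (hm : 1 ≤ m) :
    ∃ (P : ℤ[X]) (N : ℕ), P.Monic ∧ wint m P = II m ∧ II m = 4 * Real.pi * N := by
  have hval : ∀ P : ℤ[X], ∃ N : ℕ, wint m P = 4 * Real.pi * N := by
    intro P
    obtain ⟨z, hz⟩ := even_sum m hm P
    have hz0 : 0 ≤ z := by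
      have : 0 ≤ ∑ i ∈ Finset.range (((X - 1) ^ m * P).natDegree + 1),
          ((X - 1) ^ m * P).coeff i ^ 2 := Finset.sum_nonneg fun i _ => sq_nonneg _
      omega
    obtain ⟨N, rfl⟩ := Int.eq_ofNat_of_zero_le hz0
    refine ⟨N, ?_⟩
    have h1 := s_RED m 0 le_rfl P
    rw [add_zero] at h1
    rw [h1, JJ_zero _ s_QF, hz]
    push_cast
    ring
  classical
  have hex : ∃ N : ℕ, ∃ P : ℤ[X], P.Monic ∧ wint m P = 4 * Real.pi * N := by
    obtain ⟨N, hN⟩ := hval 1
    exact ⟨N, 1, Polynomial.monic_one, hN⟩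
  obtain ⟨P, hP, hPN⟩ := Nat.find_spec hex
  have hmin : ∀ P' : ℤ[X], P'.Monic → wint m P ≤ wint m P' := by
    intro P' hP'
    obtain ⟨N', hN'⟩ := hval P'
    have h1 : Nat.find hex ≤ N' := Nat.find_min' hex ⟨P', hP', hN'⟩
    rw [hPN, hN']
    have h2 : ((Nat.find hex : ℕ) : ℝ) ≤ N' := by exact_mod_cast h1
    have := Real.pi_pos
    nlinarith
  have heq : wint m P = II m := by
    refine le_antisymm ?_ (II_le _ P hP)
    refine le_csInf (ne_II (m : ℝ)) ?_
    rintro x ⟨P', hP', rfl⟩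
    exact hmin P' hP'
  exact ⟨P, Nat.find hex, hP, heq, by rw [← heq, hPN]⟩

end Pool.Agent.L7h38.IW
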